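import Pool.Agent.Q285.HG.Zeta

set_option autoImplicit false

namespace Pool.Agent.Q285.HG


lemma identK {K : Type*} [Field K] [CharZero K] (X r w wd h : K) (hr : (1 - 4 * X) * r ^ 2 = 1)
    (hh : 2 * h = 1) :
    (1 - 4 * X) * (2 * X * (h * (4 * r ^ 4 - 2 * r ^ 3) + 8 * X * r ^ 3 * w +
      24 * X ^ 2 * r ^ 5 * w + 4 * X ^ 2 * r ^ 3 * (wd * (2 * X * r ^ 3))) +
      (h * (r ^ 2 - r) + 4 * X ^ 2 * r ^ 3 * w) ^ 2 - (h * (r ^ 2 - r) + 4 * X ^ 2 * r ^ 3 * w)) -
      X * (8 * (h * (r ^ 2 - r) + 4 * X ^ 2 * r ^ 3 * w) + 1) =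
    4 * X ^ 2 * r ^ 2 * ((1 + h * (r * (1 - 2 * X) - 1)) * (4 * w +
      4 * (h * (r * (1 - 2 * X) - 1)) * wd + 4 * (h * (r * (1 - 2 * X) - 1)) * w ^ 2) - w +
      4 * (h * (r * (1 - 2 * X) - 1)) * w + 1) := by
  have hr0 : r ≠ 0 := by
    rintro rfl
    simp at hr
  have hh' : h = 1 / 2 := by
    field_simp
    linear_combination hh
  have hX : X = (r ^ 2 - 1) / (4 * r ^ 2) := by
    field_simp
    linear_combination -hr
  subst hh'
  rw [hX]
  field_simp
  ring

/-- main identity -/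
lemma ident {R : Type*} [CommRing R] [IsDomain R] [CharZero R] (X r w wd V L dL h : R)
    (hr : (1 - 4 * X) * r ^ 2 = 1) (hh : 2 * h = 1)
    (hV : V = h * (r * (1 - 2 * X) - 1))
    (hw : (1 + V) * (4 * w + 4 * V * wd + 4 * V * w ^ 2) - w + 4 * V * w + 1 = 0)
    (hL : L = h * (r ^ 2 - r) + 4 * X ^ 2 * r ^ 3 * w)
    (hdL : dL = h * (4 * r ^ 4 - 2 * r ^ 3) + 8 * X * r ^ 3 * w + 24 * X ^ 2 * r ^ 5 * w +
      4 * X ^ 2 * r ^ 3 * (wd * (2 * X * r ^ 3))) :
    (1 - 4 * X) * (2 * X * dL + L ^ 2 - L) = X * (8 * L + 1) := by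
  subst hL hdL hV
  have hinj := IsFractionRing.injective R (FractionRing R)
  have : CharZero (FractionRing R) := charZero_of_injective_algebraMap hinj
  rw [← sub_eq_zero]
  apply hinj
  have h1 := identK (K := FractionRing R) (algebraMap R _ X) (algebraMap R _ r)
    (algebraMap R _ w) (algebraMap R _ wd) (algebraMap R _ h)
    (by have := congrArg (algebraMap R (FractionRing R)) hr; simpa only [map_mul, map_sub, map_one, map_pow, map_ofNat] using this)
    (by have := congrArg (algebraMap R (FractionRing R)) hh; simpa only [map_mul, map_sub, map_one, map_pow, map_ofNat] using this)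
  have h2 := congrArg (algebraMap R (FractionRing R)) hw
  simp only [map_add, map_sub, map_mul, map_pow, map_one, map_ofNat, map_zero] at h1 h2 ⊢
  rw [h1, h2, mul_zero]

open PowerSeries Finset

instance : CharZero ℚ⟦X⟧ :=
  charZero_of_injective_ringHom (f := (C : ℚ →+* ℚ⟦X⟧)) C_injective

/-- the Catalan series -/
noncomputable def c : ℚ⟦X⟧ := PowerSeries.map (Nat.castRingHom ℚ) catalanSeries

lemma c_eq : c = 1 + X * c ^ 2 := by
  have h := congrArg (PowerSeries.map (Nat.castRingHom ℚ)) catalanSeries_sq_mul_X_add_one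
  rw [map_add, map_mul, map_pow, map_X, map_one] at h
  change c ^ 2 * X + 1 = c at h
  rw [add_comm, mul_comm] at h
  exact h.symm

lemma c_mem : c ∈ I2 := by
  intro n
  rw [c, coeff_map, catalanSeries_coeff]
  exact nat_mem _

/-- `ρ = √(1 - 4 X)` -/
noncomputable def rho : ℚ⟦X⟧ := 1 - 2 * X * c

lemma two_mem : (2 : ℚ⟦X⟧) ∈ I2 := by
  have : (2 : ℚ⟦X⟧) = 1 + 1 := by norm_num
  rw [this]
  exact I2.add_mem I2.one_mem I2.one_mem

lemma rho_mem : rho ∈ I2 :=
  I2.sub_mem I2.one_mem (I2.mul_mem (I2.mul_mem two_mem X_mem) c_mem)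

lemma rho_zero : constantCoeff rho = 1 := by
  rw [rho, map_sub, map_mul, map_mul, constantCoeff_X]
  simp

lemma rho_sq : rho ^ 2 = 1 - 4 * X := by
  have h := c_eq
  rw [rho]
  linear_combination -(4 * X) * h

/-- `1 / ρ` -/
noncomputable def r : ℚ⟦X⟧ := rho⁻¹

lemma rho_r : rho * r = 1 := by
  rw [r]
  exact PowerSeries.mul_inv_cancel _ (by rw [rho_zero]; exact one_ne_zero)

lemma r_mem : r ∈ I2 := inv_mem rho_mem rho_zero rho_r

lemma hr : (1 - 4 * X) * r ^ 2 = 1 := by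
  rw [← rho_sq, ← mul_pow, rho_r, one_pow]

lemma rho_eq : rho = (1 - 4 * X) * r := by
  have h1 := rho_r
  have h2 := rho_sq
  linear_combination -rho * h1 + r * h2

lemma d_num (n : ℕ) : d⁄dX ℚ (n : ℚ⟦X⟧) = 0 := Derivation.map_natCast _ n

lemma d_four : d⁄dX ℚ (4 : ℚ⟦X⟧) = 0 := d_num 4

lemma d_two : d⁄dX ℚ (2 : ℚ⟦X⟧) = 0 := d_num 2

lemma d_rho : d⁄dX ℚ rho = -(2 * r) := by
  have h1 := congrArg (d⁄dX ℚ) rho_sq
  rw [derivative_pow, map_sub, derivative_one, Derivation.leibniz, d_four, derivative_X] at h1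
  simp only [smul_eq_mul, mul_one, mul_zero, add_zero, zero_sub, Nat.cast_ofNat,
    Nat.add_one_sub_one, pow_one] at h1
  have h2 := rho_r
  have h3 : (2 : ℚ⟦X⟧) * (d⁄dX ℚ rho + 2 * r) = 0 := by
    linear_combination r * h1 - 2 * d⁄dX ℚ rho * h2
  have h4 : (2 : ℚ⟦X⟧) ≠ 0 := two_ne_zero
  have := (mul_eq_zero.1 h3).resolve_left h4
  linear_combination this

lemma d_r : d⁄dX ℚ r = 2 * r ^ 3 := by
  rw [r, derivative_inv', d_rho, r]
  ring

/-- the constant `1 / 2` -/
noncomputable def h : ℚ⟦X⟧ := C (1 / 2)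

lemma hh : 2 * h = 1 := by
  have h2 : (2 : ℚ⟦X⟧) = C 2 := (map_ofNat C 2).symm
  rw [h, h2, ← map_mul]
  norm_num

lemma d_h : d⁄dX ℚ h = 0 := derivative_C

/-- the variable `V` -/
noncomputable def V : ℚ⟦X⟧ := h * (r * (1 - 2 * X) - 1)

lemma V_eq : V = X ^ 2 * c ^ 2 * r := by
  have h1 : 2 * V = r * (1 - 2 * X) - 1 := by
    rw [V]
    linear_combination (r * (1 - 2 * X) - 1) * hh
  have h2 := c_eq
  have h3 := rho_r
  rw [rho] at h3
  have h4 : (2 : ℚ⟦X⟧) * (V - X ^ 2 * c ^ 2 * r) = 0 := by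
    linear_combination h1 + h3 + 2 * X * r * h2
  have := (mul_eq_zero.1 h4).resolve_left two_ne_zero
  linear_combination this

lemma V_mem : V ∈ I2 := by
  rw [V_eq]
  exact I2.mul_mem (I2.mul_mem (I2.pow_mem X_mem 2) (I2.pow_mem c_mem 2)) r_mem

lemma V_zero : constantCoeff V = 0 := by
  rw [V_eq, map_mul, map_mul, map_pow, constantCoeff_X]
  simp

lemma V_subst : HasSubst V := HasSubst.of_constantCoeff_zero' V_zero

lemma d_V : d⁄dX ℚ V = 2 * X * r ^ 3 := by
  have h1 : d⁄dX ℚ V = h * (2 * r ^ 3 * (1 - 2 * X) - 2 * r) := by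
    rw [V, Derivation.leibniz, d_h, map_sub, Derivation.leibniz, map_sub, Derivation.leibniz,
      derivative_one, derivative_X, d_two, d_r]
    simp only [smul_eq_mul]
    ring
  rw [h1]
  have h2 := hh
  have h3 := hr
  linear_combination (r ^ 3 * (1 - 2 * X) - r) * h2 + r * h3

/-- the transformed `ζ` -/
noncomputable def w : ℚ⟦X⟧ := zeta.subst V

/-- the transformed derivative of `ζ` -/
noncomputable def wd : ℚ⟦X⟧ := (d⁄dX ℚ zeta).subst V

lemma d_w : d⁄dX ℚ w = wd * (2 * X * r ^ 3) := by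
  rw [w, derivative_subst V_subst, d_V, wd]

lemma w_eq : (1 + V) * (4 * w + 4 * V * wd + 4 * V * w ^ 2) - w + 4 * V * w + 1 = 0 := by
  have h1 := congrArg (substAlgHom V_subst) zeta_eq
  simp only [map_add, map_sub, map_mul, map_pow, map_one, map_ofNat, map_zero,
    substAlgHom_X] at h1
  rw [coe_substAlgHom] at h1
  exact h1

/-- the logarithmic derivative (times `X`) -/
noncomputable def L : ℚ⟦X⟧ := h * (r ^ 2 - r) + 4 * X ^ 2 * r ^ 3 * w

lemma d_L : d⁄dX ℚ L = h * (4 * r ^ 4 - 2 * r ^ 3) + 8 * X * r ^ 3 * w +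
    24 * X ^ 2 * r ^ 5 * w + 4 * X ^ 2 * r ^ 3 * (wd * (2 * X * r ^ 3)) := by
  rw [L, map_add, Derivation.leibniz, d_h, map_sub, derivative_pow, d_r, Derivation.leibniz,
    Derivation.leibniz, Derivation.leibniz, derivative_pow, derivative_pow, d_four, d_r, d_w,
    derivative_X]
  simp only [smul_eq_mul]
  push_cast
  ring

lemma L_riccati : (1 - 4 * X) * (2 * X * d⁄dX ℚ L + L ^ 2 - L) = X * (8 * L + 1) :=
  ident X r w wd V L _ h hr hh rfl w_eq rfl d_L

/-- the series `W = exp (2 N (V))` -/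
noncomputable def W : ℚ⟦X⟧ := (exp ℚ).subst (2 * N.subst V)

lemma NV_zero : constantCoeff (N.subst V : ℚ⟦X⟧) = 0 :=
  constantCoeff_subst_eq_zero V_zero N N_zero

lemma NV_subst : HasSubst (2 * N.subst V : ℚ⟦X⟧) :=
  HasSubst.of_constantCoeff_zero' (by rw [map_mul, NV_zero, mul_zero])

lemma W_mem : W ∈ I2 := exp_mem (subst_mem N_mem V_mem V_subst) NV_subst

lemma d_W : d⁄dX ℚ W = 4 * X * r ^ 3 * w * W := by
  rw [W, derivative_subst NV_subst, derivative_exp, Derivation.leibniz, d_two,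
    derivative_subst V_subst, dN, d_V, ← w]
  simp only [smul_eq_mul]
  ring

/-- the series which will be `E ^ 2` -/
noncomputable def S : ℚ⟦X⟧ := h * (1 + r) * W

lemma S_eq : S = r * (1 - X * c) * W := by
  have h1 : 2 * S = 2 * (r * (1 - X * c) * W) := by
    have h2 := hh
    have h3 := rho_r
    rw [rho] at h3
    rw [S]
    linear_combination (1 + r) * W * h2 - W * h3
  exact mul_left_cancel₀ two_ne_zero h1

lemma S_mem : S ∈ I2 := by
  rw [S_eq]
  exact I2.mul_mem (I2.mul_mem r_mem (I2.sub_mem I2.one_mem (I2.mul_mem X_mem c_mem))) W_mem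

lemma r_zero : constantCoeff r = 1 := by
  have h1 := congrArg constantCoeff rho_r
  rw [map_mul, rho_zero, one_mul, map_one] at h1
  exact h1

lemma W_zero : constantCoeff W = 1 := by
  have h1 : coeff 0 ((exp ℚ).subst (2 * N.subst V : ℚ⟦X⟧)) = 1 := by
    rw [coeff_subst' NV_subst, finsum_eq_single _ 0]
    · simp
    · intro d hd
      rw [coeff_zero_eq_constantCoeff_apply (R := ℚ), map_pow, map_mul, NV_zero, mul_zero,
        zero_pow hd, smul_zero]
  rw [← coeff_zero_eq_constantCoeff_apply]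
  exact h1

lemma S_zero : constantCoeff S = 1 := by
  rw [S, map_mul, map_mul, map_add, r_zero, W_zero, h, constantCoeff_C, map_one]
  norm_num

lemma d_S : X * d⁄dX ℚ S = L * S := by
  have h1 : d⁄dX ℚ S = h * (2 * r ^ 3) * W + h * (1 + r) * (4 * X * r ^ 3 * w * W) := by
    rw [S, Derivation.leibniz, Derivation.leibniz, d_h, map_add, derivative_one, d_r, d_W]
    simp only [smul_eq_mul]
    ring
  rw [h1, L, S]
  have h2 := hr
  have h3 := hh
  have h4 : X * (2 * r ^ 3) = h * (r ^ 2 - r) * (1 + r) := by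
    have h5 : 2 * (X * (2 * r ^ 3)) = 2 * (h * (r ^ 2 - r) * (1 + r)) := by
      linear_combination -r * h2 - (r ^ 2 - r) * (1 + r) * h3
    exact mul_left_cancel₀ two_ne_zero h5
  linear_combination h * W * h4

end Pool.Agent.Q285.HG
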