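import Mathlib

set_option autoImplicit false

namespace Pool.Agent.Q285.HG

open PowerSeries Finset

/-- the rational numbers with odd denominator -/
def Z2 : Subring ℚ where
  carrier := {x | ∃ a b : ℤ, Odd b ∧ x * b = a}
  mul_mem' := by
    rintro x y ⟨a, b, hb, h⟩ ⟨c, d, hd, h'⟩
    refine ⟨a * c, b * d, hb.mul hd, ?_⟩
    push_cast
    rw [← h, ← h']; ring
  one_mem' := ⟨1, 1, odd_one, by simp⟩
  add_mem' := by
    rintro x y ⟨a, b, hb, h⟩ ⟨c, d, hd, h'⟩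
    refine ⟨a * d + c * b, b * d, hb.mul hd, ?_⟩
    push_cast
    rw [← h, ← h']; ring
  zero_mem' := ⟨0, 1, odd_one, by simp⟩
  neg_mem' := by
    rintro x ⟨a, b, hb, h⟩
    exact ⟨-a, b, hb, by push_cast; rw [← h]; ring⟩

lemma int_mem (n : ℤ) : (n : ℚ) ∈ Z2 := ⟨n, 1, odd_one, by simp⟩

lemma nat_mem (n : ℕ) : (n : ℚ) ∈ Z2 := ⟨n, 1, odd_one, by simp⟩

lemma mem_of_mul {x : ℚ} {b : ℤ} (hb : Odd b) (h : x * b ∈ Z2) : x ∈ Z2 := by
  obtain ⟨c, d, hd, h'⟩ := h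
  exact ⟨c, b * d, hb.mul hd, by push_cast; rw [← h']; ring⟩

lemma odd_den {x : ℚ} (h : x ∈ Z2) : Odd x.den := by
  obtain ⟨a, b, hb, h'⟩ := h
  have hb0 : b ≠ 0 := by rintro rfl; simp at hb
  have h1 : x = a / b := by
    rw [eq_div_iff (by exact_mod_cast hb0)]; exact h'
  have h2 : (x.den : ℤ) ∣ b := by
    rw [h1, ← Rat.divInt_eq_div]; exact Rat.den_dvd a b
  have h3 : Odd (x.den : ℤ) := by
    obtain ⟨c, hc⟩ := h2
    rw [hc] at hb
    exact (Int.odd_mul.1 hb).1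
  exact_mod_cast h3

/-- `2 ^ (n - 1) / n` -/
lemma two_pow_div (n : ℕ) : (2 : ℚ) ^ n / ((n : ℚ) + 1) ∈ Z2 := by
  obtain ⟨k, m, hm, h⟩ := Nat.exists_eq_two_pow_mul_odd (Nat.succ_ne_zero n)
  have hk : k ≤ n := by
    have h1 : 2 ^ k ≤ n + 1 := Nat.le_of_dvd (Nat.succ_pos n) (by
      rw [← Nat.succ_eq_add_one, h]; exact Dvd.intro _ rfl)
    have h2 : k < 2 ^ k := Nat.lt_two_pow_self
    omega
  have hm0 : (m : ℚ) ≠ 0 := by
    have : m ≠ 0 := by rintro rfl; simp at hm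
    exact_mod_cast this
  refine mem_of_mul (b := (m : ℤ)) (by exact_mod_cast hm) ?_
  have h3 : (n : ℚ) + 1 = 2 ^ k * m := by exact_mod_cast h
  have h4 : (2 : ℚ) ^ n / ((n : ℚ) + 1) * ((m : ℤ) : ℚ) = ((2 ^ (n - k) : ℕ) : ℚ) := by
    rw [h3]
    push_cast
    have : (2 : ℚ) ^ n = 2 ^ (n - k) * 2 ^ k := by rw [← pow_add]; congr 1; omega
    rw [this]
    field_simp
  rw [h4]
  exact nat_mem _

lemma two_pow_div_factorial (n : ℕ) : (2 : ℚ) ^ n / (n.factorial : ℚ) ∈ Z2 := by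
  rcases Nat.eq_zero_or_pos n with rfl | hn
  · simp [Z2.one_mem]
  obtain ⟨k, m, hm, h⟩ := Nat.exists_eq_two_pow_mul_odd (Nat.factorial_ne_zero n)
  have hk : k ≤ n := by
    have h1 : 2 ^ k ∣ n.factorial := by rw [h]; exact Dvd.intro _ rfl
    have h2 : emultiplicity 2 n.factorial < n := Nat.emultiplicity_two_factorial_lt hn.ne'
    have h3 := le_emultiplicity_of_pow_dvd h1
    have h4 := lt_of_le_of_lt h3 h2
    exact_mod_cast h4.le
  have hm0 : (m : ℚ) ≠ 0 := by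
    have : m ≠ 0 := by rintro rfl; simp at hm
    exact_mod_cast this
  refine mem_of_mul (b := (m : ℤ)) (by exact_mod_cast hm) ?_
  have h3 : (n.factorial : ℚ) = 2 ^ k * m := by exact_mod_cast h
  have h4 : (2 : ℚ) ^ n / (n.factorial : ℚ) * ((m : ℤ) : ℚ) = ((2 ^ (n - k) : ℕ) : ℚ) := by
    rw [h3]
    push_cast
    have : (2 : ℚ) ^ n = 2 ^ (n - k) * 2 ^ k := by rw [← pow_add]; congr 1; omega
    rw [this]
    field_simp
  rw [h4]
  exact nat_mem _

/-- the power series with coefficients in `Z2` -/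
def I2 : Subring ℚ⟦X⟧ where
  carrier := {f | ∀ n, coeff n f ∈ Z2}
  mul_mem' := by
    intro f g hf hg n
    rw [coeff_mul]
    exact sum_mem fun p _ => Z2.mul_mem (hf _) (hg _)
  one_mem' := by
    intro n
    rw [coeff_one]
    split_ifs
    exacts [Z2.one_mem, Z2.zero_mem]
  add_mem' := by
    intro f g hf hg n
    rw [map_add]
    exact Z2.add_mem (hf _) (hg _)
  zero_mem' := by
    intro n
    rw [map_zero]; exact Z2.zero_mem
  neg_mem' := by
    intro f hf n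
    rw [map_neg]
    exact Z2.neg_mem (hf _)

lemma mem_I2 {f : ℚ⟦X⟧} : f ∈ I2 ↔ ∀ n, coeff n f ∈ Z2 := Iff.rfl

lemma X_mem : (X : ℚ⟦X⟧) ∈ I2 := by
  intro n
  rw [coeff_X]
  split_ifs
  exacts [Z2.one_mem, Z2.zero_mem]

/-- inverses -/
lemma inv_mem {f g : ℚ⟦X⟧} (hf : f ∈ I2) (h0 : constantCoeff f = 1) (h : f * g = 1) :
    g ∈ I2 := by
  intro n
  induction n using Nat.strong_induction_on with
  | _ n ih =>
    have h1 := congrArg (coeff n) h
    rw [coeff_mul, Nat.sum_antidiagonal_eq_sum_range_succ (fun i j => coeff i f * coeff j g),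
      Finset.sum_range_succ'] at h1
    simp only [coeff_zero_eq_constantCoeff, h0, one_mul, Nat.sub_zero] at h1
    have h2 : coeff n g = coeff n (1 : ℚ⟦X⟧) -
        ∑ k ∈ range n, coeff (k + 1) f * coeff (n - (k + 1)) g := by
      rw [← h1]; ring
    rw [h2]
    refine Z2.sub_mem (I2.one_mem n) (sum_mem fun k hk => Z2.mul_mem (hf _) (ih _ ?_))
    have := Finset.mem_range.1 hk
    omega

lemma subst_mem {f g : ℚ⟦X⟧} (hf : f ∈ I2) (hg : g ∈ I2) (hs : HasSubst g) :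
    f.subst g ∈ I2 := by
  intro n
  rw [coeff_subst' hs]
  refine finsum_induction (· ∈ Z2) Z2.zero_mem (fun _ _ => Z2.add_mem) fun d => ?_
  rw [smul_eq_mul]
  exact Z2.mul_mem (hf d) (I2.pow_mem hg d n)

/-- the exponential series at `2 g` -/
lemma exp_mem {g : ℚ⟦X⟧} (hg : g ∈ I2) (hs : HasSubst (2 * g)) :
    (exp ℚ).subst (2 * g) ∈ I2 := by
  intro n
  rw [coeff_subst' hs]
  refine finsum_induction (· ∈ Z2) Z2.zero_mem (fun _ _ => Z2.add_mem) fun d => ?_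
  have h1 : coeff d (exp ℚ) • coeff n ((2 * g) ^ d) =
      (2 : ℚ) ^ d / (d.factorial : ℚ) * coeff n (g ^ d) := by
    rw [mul_pow, coeff_exp, smul_eq_mul]
    have h2 : ((2 : ℚ⟦X⟧) ^ d) * g ^ d = C ((2 : ℚ) ^ d) * g ^ d := by
      congr 1
      rw [map_pow]
      congr 1
    rw [h2, coeff_C_mul]
    simp only [eq_ratCast, Rat.cast_id]
    field_simp
  rw [h1]
  exact Z2.mul_mem (two_pow_div_factorial d) (I2.pow_mem hg d n)

end Pool.Agent.Q285.HG
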