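import Pool.Agent.Q285.HG.Alg

set_option autoImplicit false

namespace Pool.Agent.Q285.HG

open PowerSeries Finset

lemma coeff_theta (f : ℚ⟦X⟧) (n : ℕ) : coeff n (X * d⁄dX ℚ f) = n * coeff n f := by
  cases n with
  | zero => rw [coeff_zero_X_mul]; simp
  | succ n => rw [coeff_succ_X_mul, coeff_derivative]; push_cast; ring

/-- uniqueness of the solution of the Riccati equation -/
lemma riccati_unique (L₁ L₂ : ℚ⟦X⟧) (h₁ : constantCoeff L₁ = 0) (h₂ : constantCoeff L₂ = 0)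
    (e₁ : (1 - 4 * X) * (2 * X * d⁄dX ℚ L₁ + L₁ ^ 2 - L₁) = X * (8 * L₁ + 1))
    (e₂ : (1 - 4 * X) * (2 * X * d⁄dX ℚ L₂ + L₂ ^ 2 - L₂) = X * (8 * L₂ + 1)) : L₁ = L₂ := by
  set δ := L₁ - L₂ with hδ
  have hdδ : d⁄dX ℚ δ = d⁄dX ℚ L₁ - d⁄dX ℚ L₂ := by rw [hδ, map_sub]
  have key : (1 - 4 * X) * (2 * (X * d⁄dX ℚ δ) + δ * (L₁ + L₂) - δ) = 8 * X * δ := by
    rw [hdδ, hδ]
    linear_combination e₁ - e₂
  have hall : ∀ n : ℕ, (X : ℚ⟦X⟧) ^ n ∣ δ := by
    intro n
    induction n with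
    | zero => simp
    | succ n ih =>
      obtain ⟨η, hη⟩ := ih
      have hθ : X * d⁄dX ℚ δ = X ^ n * ((n : ℚ⟦X⟧) * η + X * d⁄dX ℚ η) := by
        rw [hη, Derivation.leibniz, derivative_pow, derivative_X]
        simp only [smul_eq_mul, mul_one]
        rcases n with _ | n
        · simp
        · rw [Nat.add_sub_cancel]; ring
      rw [hθ, hη] at key
      have h3 : (X : ℚ⟦X⟧) ^ n * ((1 - 4 * X) * (2 * ((n : ℚ⟦X⟧) * η + X * d⁄dX ℚ η) +
          η * (L₁ + L₂) - η) - 8 * X * η) = 0 := by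
        linear_combination key
      have h4 := (mul_eq_zero.1 h3).resolve_left (pow_ne_zero n X_ne_zero)
      have h5 := congrArg constantCoeff h4
      simp only [map_sub, map_add, map_mul, map_one, map_zero, constantCoeff_X, h₁, h₂,
        map_ofNat, map_natCast, mul_zero, zero_mul, add_zero, sub_zero, one_mul] at h5
      have h6 : (2 * (n : ℚ) - 1) * constantCoeff η = 0 := by linarith
      have h7 : (2 * (n : ℚ) - 1) ≠ 0 := by
        intro h
        have h8 : (2 * (n : ℤ) - 1) = 0 := by exact_mod_cast h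
        omega
      have h8 := (mul_eq_zero.1 h6).resolve_left h7
      obtain ⟨ξ, hξ⟩ := X_dvd_iff.2 h8
      exact ⟨ξ, by rw [hη, hξ]; ring⟩
  have hz : δ = 0 := by
    ext n
    rw [map_zero]
    exact X_pow_dvd_iff.1 (hall (n + 1)) n (Nat.lt_succ_self n)
  exact sub_eq_zero.1 hz

/-- the coefficients of `E` -/
noncomputable def E : ℚ⟦X⟧ := PowerSeries.mk fun n =>
  (∏ j ∈ range n, (4 * (j : ℚ) + 1) ^ 2) / ((2 * n).factorial : ℚ)

/-- the coefficients of `O` -/
noncomputable def O : ℚ⟦X⟧ := PowerSeries.mk fun n =>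
  (∏ j ∈ range n, (4 * (j : ℚ) + 3) ^ 2) / ((2 * n + 1).factorial : ℚ)

lemma E_zero : constantCoeff E = 1 := by
  rw [← coeff_zero_eq_constantCoeff_apply, E, coeff_mk]
  simp

lemma O_zero : constantCoeff O = 1 := by
  rw [← coeff_zero_eq_constantCoeff_apply, O, coeff_mk]
  simp

lemma E_rec (n : ℕ) : (2 * (n : ℚ) + 2) * (2 * n + 1) * coeff (n + 1) E =
    (4 * (n : ℚ) + 1) ^ 2 * coeff n E := by
  rw [E, coeff_mk, coeff_mk, prod_range_succ]
  have h1 : 2 * (n + 1) = 2 * n + 1 + 1 := by ring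
  rw [h1, Nat.factorial_succ, Nat.factorial_succ]
  have h2 : ((2 * n).factorial : ℚ) ≠ 0 := by exact_mod_cast Nat.factorial_ne_zero _
  push_cast
  have h3 : (2 * (n : ℚ) + 1 + 1) ≠ 0 := by positivity
  have h4 : (2 * (n : ℚ) + 1) ≠ 0 := by positivity
  field_simp
  ring

lemma O_rec (n : ℕ) : (2 * (n : ℚ) + 3) * (2 * n + 2) * coeff (n + 1) O =
    (4 * (n : ℚ) + 3) ^ 2 * coeff n O := by
  rw [O, coeff_mk, coeff_mk, prod_range_succ]
  have h1 : 2 * (n + 1) + 1 = 2 * n + 1 + 1 + 1 := by ring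
  rw [h1, Nat.factorial_succ (2 * n + 1 + 1), Nat.factorial_succ (2 * n + 1)]
  have h2 : ((2 * n + 1).factorial : ℚ) ≠ 0 := by exact_mod_cast Nat.factorial_ne_zero _
  push_cast
  have h3 : (2 * (n : ℚ) + 1 + 1 + 1) ≠ 0 := by positivity
  have h4 : (2 * (n : ℚ) + 1 + 1) ≠ 0 := by positivity
  field_simp
  ring

/-- `θ E`, `θ² E` and so on -/
noncomputable def th (f : ℚ⟦X⟧) : ℚ⟦X⟧ := X * d⁄dX ℚ f

lemma coeff_th (f : ℚ⟦X⟧) (n : ℕ) : coeff n (th f) = n * coeff n f := coeff_theta f n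

lemma th_mul (f g : ℚ⟦X⟧) : th (f * g) = th f * g + f * th g := by
  rw [th, Derivation.leibniz, th, th]
  simp only [smul_eq_mul]
  ring

lemma th_add (f g : ℚ⟦X⟧) : th (f + g) = th f + th g := by
  rw [th, map_add, th, th]; ring

lemma E_ode : 4 * th (th E) - 2 * th E = X * (16 * th (th E) + 8 * th E + E) := by
  have h4 : (4 : ℚ⟦X⟧) = C 4 := (map_ofNat C 4).symm
  have h2 : (2 : ℚ⟦X⟧) = C 2 := (map_ofNat C 2).symm
  have h16 : (16 : ℚ⟦X⟧) = C 16 := (map_ofNat C 16).symm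
  have h8 : (8 : ℚ⟦X⟧) = C 8 := (map_ofNat C 8).symm
  rw [h4, h2, h16, h8]
  ext n
  cases n with
  | zero =>
    rw [coeff_zero_X_mul, map_sub, coeff_C_mul, coeff_C_mul, coeff_th, coeff_th]
    simp
  | succ n =>
    rw [coeff_succ_X_mul, map_sub, map_add, map_add, coeff_C_mul, coeff_C_mul, coeff_C_mul,
      coeff_C_mul, coeff_th, coeff_th, coeff_th, coeff_th]
    have := E_rec n
    push_cast
    linear_combination this

lemma O_ode : 4 * th (th O) + 2 * th O = X * (16 * th (th O) + 24 * th O + 9 * O) := by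
  have h4 : (4 : ℚ⟦X⟧) = C 4 := (map_ofNat C 4).symm
  have h2 : (2 : ℚ⟦X⟧) = C 2 := (map_ofNat C 2).symm
  have h16 : (16 : ℚ⟦X⟧) = C 16 := (map_ofNat C 16).symm
  have h24 : (24 : ℚ⟦X⟧) = C 24 := (map_ofNat C 24).symm
  have h9 : (9 : ℚ⟦X⟧) = C 9 := (map_ofNat C 9).symm
  rw [h4, h2, h16, h24, h9]
  ext n
  cases n with
  | zero =>
    rw [coeff_zero_X_mul, map_add, coeff_C_mul, coeff_C_mul, coeff_th, coeff_th]
    simp
  | succ n =>
    rw [coeff_succ_X_mul, map_add, map_add, map_add, coeff_C_mul, coeff_C_mul, coeff_C_mul,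
      coeff_C_mul, coeff_C_mul, coeff_th, coeff_th, coeff_th, coeff_th]
    have := O_rec n
    push_cast
    linear_combination this

lemma E_ne : E ≠ 0 := by
  intro h0
  have := E_zero
  rw [h0, map_zero] at this
  exact zero_ne_one this

lemma E_inv : E * E⁻¹ = 1 := PowerSeries.mul_inv_cancel _ (by rw [E_zero]; exact one_ne_zero)

/-- `2 θ E / E` -/
noncomputable def LE : ℚ⟦X⟧ := 2 * th E * E⁻¹

lemma LE_mul : LE * E = 2 * th E := by
  rw [LE]
  linear_combination 2 * th E * E_inv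

lemma th_zero (f : ℚ⟦X⟧) : constantCoeff (th f) = 0 := by
  rw [th, map_mul, constantCoeff_X, zero_mul]

lemma LE_zero : constantCoeff LE = 0 := by
  rw [LE, map_mul, map_mul, th_zero, mul_zero, zero_mul]

lemma th_two : th (2 : ℚ⟦X⟧) = 0 := by rw [th, d_two, mul_zero]

lemma LE_riccati : (1 - 4 * X) * (2 * X * d⁄dX ℚ LE + LE ^ 2 - LE) = X * (8 * LE + 1) := by
  have h1 := LE_mul
  have h2 := congrArg th h1
  rw [th_mul, th_mul, th_two, zero_mul, zero_add] at h2
  have h3 := E_ode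
  have h4 : E ^ 2 * ((1 - 4 * X) * (2 * X * d⁄dX ℚ LE + LE ^ 2 - LE)) =
      E ^ 2 * (X * (8 * LE + 1)) := by
    have h5 : X * d⁄dX ℚ LE = th LE := rfl
    have h6 : 2 * X * d⁄dX ℚ LE = 2 * th LE := by rw [← h5]; ring
    rw [h6]
    linear_combination (2 * E * (1 - 4 * X)) * h2 + ((1 - 4 * X) * (LE * E - E) - 8 * X * E) * h1 +
      E * h3
  exact mul_left_cancel₀ (pow_ne_zero 2 E_ne) h4

lemma L_zero : constantCoeff L = 0 := by
  rw [L, map_add, map_mul, map_sub, map_pow, r_zero, map_mul, map_mul, map_mul, map_pow,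
    constantCoeff_X]
  simp

lemma LE_eq : LE = L := riccati_unique _ _ LE_zero L_zero LE_riccati L_riccati

lemma S_ne : S ≠ 0 := by
  intro h0
  have := S_zero
  rw [h0, map_zero] at this
  exact zero_ne_one this

lemma S_inv : S * S⁻¹ = 1 := PowerSeries.mul_inv_cancel _ (by rw [S_zero]; exact one_ne_zero)

/-- `E ^ 2` has coefficients in `Z2` -/
lemma E_sq : E ^ 2 = S := by
  have h1 : E ^ 2 * S⁻¹ = 1 := by
    apply derivative.ext
    · rw [derivative_one, Derivation.leibniz, derivative_pow, derivative_inv']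
      simp only [smul_eq_mul]
      have h2 : X * d⁄dX ℚ S = L * S := d_S
      have h3 : LE * E = 2 * th E := LE_mul
      rw [LE_eq, th] at h3
      have h4 : (X : ℚ⟦X⟧) * S ^ 2 * (E ^ 2 * (-S⁻¹ ^ 2 * d⁄dX ℚ S) +
          S⁻¹ * ((2 : ℕ) * E ^ (2 - 1) * d⁄dX ℚ E)) = 0 := by
        have h5 := S_inv
        have h6 : S ^ 2 * S⁻¹ ^ 2 = 1 := by rw [← mul_pow, h5, one_pow]
        push_cast
        have h7 : E ^ (2 - 1) = E := by norm_num
        rw [h7]
        linear_combination (-(E ^ 2) * (X * d⁄dX ℚ S)) * h6 - E ^ 2 * h2 - S * E * h3 +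
          2 * X * S * E * d⁄dX ℚ E * h5
      exact (mul_eq_zero.1 h4).resolve_left (mul_ne_zero X_ne_zero (pow_ne_zero 2 S_ne))
    · rw [map_mul, map_pow, E_zero, map_one, one_pow, one_mul]
      have := congrArg constantCoeff S_inv
      rw [map_mul, S_zero, one_mul, map_one] at this
      exact this
  have h2 := S_inv
  linear_combination S * h1 - E ^ 2 * h2

/-- the Wronskian -/
lemma wronskian : (1 - 4 * X) * (E * (O + 2 * th O) - 2 * O * th E) = 1 := by
  apply derivative.ext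
  · rw [derivative_one]
    have h1 : X * d⁄dX ℚ ((1 - 4 * X) * (E * (O + 2 * th O) - 2 * O * th E)) = 0 := by
      have e1 : X * d⁄dX ℚ ((1 - 4 * X) * (E * (O + 2 * th O) - 2 * O * th E)) =
          -(4 * X) * (E * (O + 2 * th O) - 2 * O * th E) + (1 - 4 * X) *
          (th E * (O + 2 * th O) + E * (th O + 2 * th (th O)) - 2 * th O * th E -
            2 * O * th (th E)) := by
        simp only [Derivation.leibniz, map_sub, map_add, derivative_one, d_four, d_two,
          derivative_X, smul_eq_mul]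
        have a1 : th (th E) = X * d⁄dX ℚ (th E) := rfl
        have a2 : th (th O) = X * d⁄dX ℚ (th O) := rfl
        have a3 : th E = X * d⁄dX ℚ E := rfl
        have a4 : th O = X * d⁄dX ℚ O := rfl
        rw [a1, a2]
        linear_combination (-(1 - 4 * X) * (O + 2 * th O)) * a3 +
          (-(1 - 4 * X) * E + 2 * (1 - 4 * X) * th E) * a4
      rw [e1]
      have h2 := E_ode
      have h3 := O_ode
      have h4 : 2 * (-(4 * X) * (E * (O + 2 * th O) - 2 * O * th E) + (1 - 4 * X) *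
          (th E * (O + 2 * th O) + E * (th O + 2 * th (th O)) - 2 * th O * th E -
            2 * O * th (th E))) = 0 := by
        linear_combination E * h3 - O * h2
      exact (mul_eq_zero.1 h4).resolve_left two_ne_zero
    exact (mul_eq_zero.1 h1).resolve_left X_ne_zero
  · simp only [map_mul, map_sub, map_add, map_one, map_ofNat, constantCoeff_X, E_zero, O_zero,
      th_zero, mul_zero, sub_zero, add_zero, mul_one]

/-- the quotient `O / E` has coefficients in `Z2` -/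
theorem quotient_mem (q : ℚ⟦X⟧) (hq : q * E = O) : q ∈ I2 := by
  have h1 : (1 - 4 * X) * S * (q + 2 * th q) = 1 := by
    have h2 := wronskian
    have h3 := th_mul q E
    rw [hq] at h3
    rw [← E_sq]
    linear_combination h2 - (2 * E * (1 - 4 * X)) * h3 + (1 - 4 * X) * (E - 2 * th E) * hq
  have h4 : (4 : ℚ⟦X⟧) ∈ I2 := by
    have : (4 : ℚ⟦X⟧) = 2 * 2 := by norm_num
    rw [this]
    exact I2.mul_mem two_mem two_mem
  have h2 : q + 2 * th q ∈ I2 := by
    refine inv_mem (I2.mul_mem (I2.sub_mem I2.one_mem (I2.mul_mem h4 X_mem)) S_mem) ?_ h1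
    rw [map_mul, S_zero, map_sub, map_mul, constantCoeff_X]
    simp
  intro n
  have h3 := h2 n
  have h5 : (2 : ℚ⟦X⟧) = C 2 := (map_ofNat C 2).symm
  rw [map_add, h5, coeff_C_mul, coeff_th] at h3
  refine mem_of_mul (b := 2 * n + 1) ⟨n, rfl⟩ ?_
  have h6 : coeff n q * ((2 * (n : ℤ) + 1 : ℤ) : ℚ) = coeff n q + 2 * (n * coeff n q) := by
    push_cast; ring
  rw [h6]
  exact h3

end Pool.Agent.Q285.HG
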