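import Pool.Agent.Q285.HG.Basic

set_option autoImplicit false

namespace Pool.Agent.Q285.HG

open PowerSeries Finset

/-- the sequence `z` -/
noncomputable def z : ℕ → ℚ
  | 0 => -(1 / 3)
  | (n + 1) => (-(2 * ((n : ℚ) + 2)) * z n - 2 * ∑ i : Fin (n + 1), z i * z (n - i) -
      ∑ i : Fin n, z i * z (n - 1 - i)) / (4 * n + 7)
  decreasing_by all_goals omega

lemma z_zero : z 0 = -(1 / 3) := by rw [z]

lemma z_succ (n : ℕ) : (4 * (n : ℚ) + 7) * z (n + 1) = -(2 * ((n : ℚ) + 2)) * z n -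
    2 * ∑ i ∈ range (n + 1), z i * z (n - i) - ∑ i ∈ range n, z i * z (n - 1 - i) := by
  have h0 : (4 * (n : ℚ) + 7) ≠ 0 := by positivity
  rw [z, mul_div_cancel₀ _ h0, Finset.sum_range (fun i => z i * z (n - i)),
    Finset.sum_range (fun i => z i * z (n - 1 - i))]

lemma z_mem (n : ℕ) : z n ∈ Z2 := by
  induction n using Nat.strong_induction_on with
  | _ n ih =>
    cases n with
    | zero =>
      rw [z_zero]
      exact ⟨-1, 3, by decide, by norm_num⟩
    | succ n =>
      refine mem_of_mul (b := 4 * n + 7) ⟨2 * n + 3, by ring⟩ ?_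
      have h1 : z (n + 1) * ((4 * (n : ℤ) + 7 : ℤ) : ℚ) = (4 * (n : ℚ) + 7) * z (n + 1) := by
        push_cast; ring
      rw [h1, z_succ]
      refine Z2.sub_mem (Z2.sub_mem (Z2.mul_mem ?_ (ih n (by omega))) (Z2.mul_mem ?_ ?_)) ?_
      · have := int_mem (-(2 * (n + 2)))
        push_cast at this ⊢
        exact this
      · have := int_mem 2
        push_cast at this
        exact this
      · refine sum_mem fun i hi => Z2.mul_mem (ih _ ?_) (ih _ ?_)
        · have := mem_range.1 hi; omega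
        · omega
      · refine sum_mem fun i hi => Z2.mul_mem (ih _ ?_) (ih _ ?_)
        · have := mem_range.1 hi; omega
        · have := mem_range.1 hi; omega

/-- the series `ζ` -/
noncomputable def zeta : ℚ⟦X⟧ := PowerSeries.mk fun n => 2 ^ n * z n

lemma coeff_zeta_sq (n : ℕ) : coeff n (zeta ^ 2) = 2 ^ n * ∑ i ∈ range (n + 1), z i * z (n - i) := by
  rw [pow_two, coeff_mul, Nat.sum_antidiagonal_eq_sum_range_succ
    (fun i j => coeff i zeta * coeff j zeta), Finset.mul_sum]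
  refine sum_congr rfl fun i hi => ?_
  have hi' := mem_range.1 hi
  rw [zeta, coeff_mk, coeff_mk]
  have : (2 : ℚ) ^ n = 2 ^ i * 2 ^ (n - i) := by rw [← pow_add]; congr 1; omega
  rw [this]; ring

/-- the Riccati equation for `ζ` -/
lemma zeta_eq : (1 + X) * (4 * zeta + 4 * X * d⁄dX ℚ zeta + 4 * X * zeta ^ 2) - zeta +
    4 * X * zeta + 1 = 0 := by
  ext n
  have e : (1 + X) * (4 * zeta + 4 * X * d⁄dX ℚ zeta + 4 * X * zeta ^ 2) - zeta +
    4 * X * zeta + 1 = C 3 * zeta + 1 + X * (C 4 * d⁄dX ℚ zeta + C 4 * zeta ^ 2 + C 8 * zeta) +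
      X * (X * (C 4 * d⁄dX ℚ zeta + C 4 * zeta ^ 2)) := by
    have h3 : (C 3 : ℚ⟦X⟧) = 3 := map_ofNat C 3
    have h4 : (C 4 : ℚ⟦X⟧) = 4 := map_ofNat C 4
    have h8 : (C 8 : ℚ⟦X⟧) = 8 := map_ofNat C 8
    rw [h3, h4, h8]; ring
  rw [e]
  rcases n with _ | _ | n
  · simp [zeta, z_zero]
  · have h1 := z_succ 0
    simp only [Nat.cast_zero, zero_add, range_one, sum_singleton, range_zero, sum_empty] at h1
    rw [map_add, map_add, map_add, coeff_succ_X_mul, coeff_succ_X_mul]
    simp only [map_add, coeff_C_mul, zero_add, coeff_zeta_sq, coeff_derivative, coeff_one]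
    simp only [zeta, coeff_mk, coeff_zero_X_mul, range_one, sum_singleton, map_zero]
    norm_num
    norm_num at h1
    have e0 := z_zero
    rw [e0] at h1 ⊢
    linarith
  · have h1 := z_succ (n + 1)
    rw [map_add, map_add, map_add, coeff_succ_X_mul, coeff_succ_X_mul, coeff_succ_X_mul]
    simp only [map_add, coeff_C_mul, coeff_zeta_sq, coeff_derivative, coeff_one, map_zero]
    have h2 : ∑ i ∈ range (n + 1), z i * z (n + 1 - 1 - i) = ∑ i ∈ range (n + 1), z i * z (n - i) :=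
      rfl
    rw [h2] at h1
    simp only [zeta, coeff_mk]
    have h3 : (2 : ℚ) ^ (n + 1 + 1) = 4 * 2 ^ n := by ring
    have h4 : (2 : ℚ) ^ (n + 1) = 2 * 2 ^ n := by ring
    rw [h3, h4]
    push_cast at h1 ⊢

    linear_combination 4 * 2 ^ n * h1

/-- the exponent, divided by `2` -/
noncomputable def N : ℚ⟦X⟧ := PowerSeries.mk fun n => if n = 0 then 0 else
  coeff (n - 1) zeta / n

lemma N_zero : constantCoeff N = 0 := by
  rw [← coeff_zero_eq_constantCoeff_apply, N, coeff_mk, if_pos rfl]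

lemma N_mem : N ∈ I2 := by
  intro n
  rw [N, coeff_mk]
  split_ifs with h
  · exact Z2.zero_mem
  · obtain ⟨m, rfl⟩ : ∃ m, n = m + 1 := ⟨n - 1, by omega⟩
    rw [Nat.add_sub_cancel, zeta, coeff_mk]
    have h1 : 2 ^ m * z m / ((m + 1 : ℕ) : ℚ) = 2 ^ m / ((m : ℚ) + 1) * z m := by
      push_cast; ring
    rw [h1]
    exact Z2.mul_mem (two_pow_div m) (z_mem m)

lemma dN : d⁄dX ℚ N = zeta := by
  ext n
  rw [coeff_derivative, N, coeff_mk, if_neg (by omega), Nat.add_sub_cancel]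
  have : (((n + 1 : ℕ)) : ℚ) ≠ 0 := by positivity
  push_cast at this ⊢
  field_simp

end Pool.Agent.Q285.HG
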